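import Pool.Agent.Lib.MP_95ac01_nt.Iface

/-!
# MP_95ac01_nt (S17823): module REG
-/

set_option autoImplicit false

namespace H97

open Cub Finset MeasureTheory
open scoped Pointwise

noncomputable section

/-- The linear map `θ ↦ ∑ θ_k v_k`. -/
def Ph {r : ℕ} (v : Fin r → Mon → ℤ) (θ : Fin r → ℝ) : Mon → ℝ := fun m => ∑ k, θ k * (v k m : ℝ)

theorem Ph_add {r : ℕ} (v : Fin r → Mon → ℤ) (θ η : Fin r → ℝ) : Ph v (θ + η) = Ph v θ + Ph v η := by
  funext m; simp [Ph, add_mul, Finset.sum_add_distrib]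

theorem Ph_sub {r : ℕ} (v : Fin r → Mon → ℤ) (θ η : Fin r → ℝ) : Ph v (θ - η) = Ph v θ - Ph v η := by
  funext m; simp [Ph, sub_mul, Finset.sum_sub_distrib]

theorem Ph_smul {r : ℕ} (v : Fin r → Mon → ℤ) (a : ℝ) (θ : Fin r → ℝ) : Ph v (a • θ) = a • Ph v θ := by
  funext m; simp [Ph, Finset.mul_sum, mul_assoc]

theorem Ph_eq {r : ℕ} (v : Fin r → Mon → ℤ) (θ : Fin r → ℝ) :
    Ph v θ = ∑ k, θ k • cc ℝ (v k) := by
  funext m; simp [Ph, cc, Finset.sum_apply]

theorem Ph_inj {r : ℕ} (v : Fin r → Mon → ℤ) (hv : LinearIndependent ℝ (fun k => cc ℝ (v k)))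
    {θ η : Fin r → ℝ} (h : Ph v θ = Ph v η) : θ = η := by
  have h1 : ∑ k, (θ - η) k • cc ℝ (v k) = 0 := by
    rw [← Ph_eq, Ph_sub, h, sub_self]
  funext k
  have := Fintype.linearIndependent_iff.1 hv _ h1 k
  simpa [sub_eq_zero] using this

theorem Ph_int {r : ℕ} (v : Fin r → Mon → ℤ) (n : Fin r → ℤ) :
    Ph v (fun k => (n k : ℝ)) = cc ℝ (∑ k, n k • v k) := by
  funext m; simp [Ph, cc, Finset.sum_apply]

/-- The body. -/
def Kb {r : ℕ} (v : Fin r → Mon → ℤ) (a : ℝ) : Set (Fin r → ℝ) := {θ | ∀ m, |Ph v θ m| ≤ a}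

/-- The unit cube at `θ`. -/
def Qc {r : ℕ} (θ : Fin r → ℝ) : Set (Fin r → ℝ) := Set.pi Set.univ fun k => Set.Ico (θ k) (θ k + 1)

theorem vol_Qc {r : ℕ} (θ : Fin r → ℝ) : volume (Qc θ) = 1 := by
  unfold Qc
  rw [Real.volume_pi_Ico]
  simp

theorem meas_Qc {r : ℕ} (θ : Fin r → ℝ) : MeasurableSet (Qc θ) :=
  MeasurableSet.univ_pi fun _ => measurableSet_Ico

theorem Ph_small {r : ℕ} (V : ℕ) (v : Fin r → Mon → ℤ) (hV : ∀ k m, |v k m| ≤ (V : ℤ))
    (θ : Fin r → ℝ) (hθ : ∀ k, |θ k| ≤ 1) (m : Mon) : |Ph v θ m| ≤ r * V := by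
  unfold Ph
  refine (Finset.abs_sum_le_sum_abs _ _).trans ?_
  have : ∀ k ∈ (univ : Finset (Fin r)), |θ k * (v k m : ℝ)| ≤ (V : ℝ) := by
    intro k _
    rw [abs_mul]
    have h1 : |(v k m : ℝ)| ≤ V := by exact_mod_cast hV k m
    calc |θ k| * |(v k m : ℝ)| ≤ 1 * V := by
          gcongr
          exact hθ k
      _ = V := one_mul _
  refine (Finset.sum_le_sum this).trans ?_
  simp

theorem vol_Kb_le {r : ℕ} (v : Fin r → Mon → ℤ) (a : ℝ) (ha : 0 < a) :
    volume (Kb v a) ≤ ENNReal.ofReal (a ^ r) * volume (Kb v 1) := by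
  have h1 : Kb v a ⊆ a • Kb v 1 := by
    intro θ hθ
    refine Set.mem_smul_set.2 ⟨a⁻¹ • θ, ?_, ?_⟩
    · intro m
      rw [Ph_smul]
      simp only [Pi.smul_apply, smul_eq_mul]
      rw [abs_mul, abs_inv, abs_of_pos ha, inv_mul_le_iff₀ ha]
      simpa using hθ m
    · rw [smul_smul, mul_inv_cancel₀ ha.ne', one_smul]
  refine (measure_mono h1).trans ?_
  rw [Measure.addHaar_smul]
  simp [abs_of_pos (pow_pos ha r)]

theorem vol_Kb_ge {r : ℕ} (v : Fin r → Mon → ℤ) (a : ℝ) (ha : 0 ≤ a) :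
    ENNReal.ofReal (a ^ r) * volume (Kb v 1) ≤ volume (Kb v a) := by
  have h1 : a • Kb v 1 ⊆ Kb v a := by
    intro θ hθ
    obtain ⟨η, hη, rfl⟩ := Set.mem_smul_set.1 hθ
    intro m
    rw [Ph_smul]
    simp only [Pi.smul_apply, smul_eq_mul]
    rw [abs_mul, abs_of_nonneg ha]
    calc a * |Ph v η m| ≤ a * 1 := by gcongr; exact hη m
      _ = a := mul_one a
  refine le_trans ?_ (measure_mono h1)
  rw [Measure.addHaar_smul]
  simp [abs_of_nonneg (pow_nonneg ha r)]

/-- One coset. -/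
theorem coset {r V : ℕ} {v : Fin r → Mon → ℤ} {L : AddSubgroup (Mon → ℤ)}
    (hv : LinearIndependent ℝ (fun k => cc ℝ (v k))) (hV : ∀ k m, |v k m| ≤ (V : ℤ))
    (hvL : ∀ k, v k ∈ L) (th : (Mon → ℤ) → Fin r → ℝ) (hth : ∀ c ∈ L, Ph v (th c) = cc ℝ c)
    (f : Fin r → ℝ) (S : ℕ → Finset (Mon → ℤ))
    (hS : ∀ t c, c ∈ S t ↔ c ∈ box t ∧ c ∈ L ∧ ∀ k, Int.fract (th c k) = f k)
    (s t : ℕ) (hs : r * V ≤ s) (ht : 0 < (t : ℝ) + r * V) :
    ((S t).card : ℝ) * ((s : ℝ) - r * V) ^ r ≤ ((S s).card : ℝ) * ((t : ℝ) + r * V) ^ r := by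
  classical
  have hccinj : ∀ {c c' : Mon → ℤ}, cc ℝ c = cc ℝ c' → c = c' := by
    intro c c' h
    funext m
    have := congrFun h m
    simpa [cc] using this
  have hbx : ∀ {t : ℕ} {c : Mon → ℤ}, c ∈ box t ↔ ∀ m, |cc ℝ c m| ≤ (t : ℝ) := by
    intro t c
    rw [mem_box]
    refine forall_congr' fun m => ?_
    unfold cc
    constructor
    · intro h; exact_mod_cast h
    · intro h; exact_mod_cast h
  rcases (S t).eq_empty_or_nonempty with he | ⟨c0, hc0⟩
  · rw [he]
    simp only [Finset.card_empty, Nat.cast_zero, zero_mul]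
    positivity
  obtain ⟨-, hc0L, hc0f⟩ := (hS t c0).1 hc0
  set κ : ENNReal := volume (Kb v 1) with hκ
  -- upper bound
  have hup : ((S t).card : ENNReal) ≤ ENNReal.ofReal (((t : ℝ) + r * V) ^ r) * κ := by
    refine le_trans ?_ (vol_Kb_le v _ ht)
    have h1 : ((S t).card : ENNReal) = ∑ c ∈ S t, volume (Qc (th c)) := by
      simp [vol_Qc]
    rw [h1, ← measure_biUnion_finset]
    · refine measure_mono ?_
      intro θ hθ
      simp only [Set.mem_iUnion] at hθ
      obtain ⟨c, hc, hθc⟩ := hθ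
      obtain ⟨hcb, hcL, -⟩ := (hS t c).1 hc
      intro m
      have e : Ph v θ = Ph v (θ - th c) + Ph v (th c) := by rw [Ph_sub]; simp
      rw [e, Pi.add_apply, hth c hcL]
      have h2 := hbx.1 hcb m
      have h3 : |Ph v (θ - th c) m| ≤ r * V := by
        refine Ph_small V v hV _ (fun k => ?_) m
        have h4 := hθc k (Set.mem_univ k)
        simp only [Set.mem_Ico] at h4
        rw [Pi.sub_apply, abs_le]
        constructor <;> linarith [h4.1, h4.2]
      calc |Ph v (θ - th c) m + cc ℝ c m| ≤ |Ph v (θ - th c) m| + |cc ℝ c m| := abs_add_le _ _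
        _ ≤ r * V + t := add_le_add h3 h2
        _ = t + r * V := add_comm _ _
    · intro c hc c' hc' hne
      simp only [Function.onFun]
      rw [Set.disjoint_left]
      intro θ hθ hθ'
      apply hne
      obtain ⟨-, hcL, hcf⟩ := (hS t c).1 hc
      obtain ⟨-, hcL', hcf'⟩ := (hS t c').1 hc'
      have : th c = th c' := by
        funext k
        have h4 := hθ k (Set.mem_univ k)
        have h5 := hθ' k (Set.mem_univ k)
        simp only [Set.mem_Ico] at h4 h5
        have e1 : th c k = ⌊th c k⌋ + f k := by rw [← hcf k]; exact (Int.floor_add_fract _).symm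
        have e2 : th c' k = ⌊th c' k⌋ + f k := by rw [← hcf' k]; exact (Int.floor_add_fract _).symm
        have e3 : ((⌊th c k⌋ : ℤ) : ℝ) < ⌊th c' k⌋ + 1 := by linarith [h4.1, h5.2]
        have e4 : ((⌊th c' k⌋ : ℤ) : ℝ) < ⌊th c k⌋ + 1 := by linarith [h4.2, h5.1]
        have e5 : ⌊th c k⌋ < ⌊th c' k⌋ + 1 := by exact_mod_cast e3
        have e6 : ⌊th c' k⌋ < ⌊th c k⌋ + 1 := by exact_mod_cast e4
        have e7 : ⌊th c k⌋ = ⌊th c' k⌋ := by omega
        rw [e1, e2, e7]
      apply hccinj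
      rw [← hth c hcL, ← hth c' hcL', this]
    · intro c _
      exact meas_Qc _
  -- lower bound
  have hlow : ∀ s : ℕ, r * V ≤ s →
      ENNReal.ofReal (((s : ℝ) - r * V) ^ r) * κ ≤ ((S s).card : ENNReal) := by
    intro s hs
    have hs' : 0 ≤ (s : ℝ) - r * V := by
      have : ((r * V : ℕ) : ℝ) ≤ s := by exact_mod_cast hs
      push_cast at this
      linarith
    refine (vol_Kb_ge v _ hs').trans ?_
    have h1 : ((S s).card : ENNReal) = ∑ c ∈ S s, volume (Qc (th c)) := by
      simp [vol_Qc]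
    rw [h1]
    refine le_trans (measure_mono ?_) (measure_biUnion_finset_le _ _)
    intro θ hθ
    simp only [Set.mem_iUnion]
    set n : Fin r → ℤ := fun k => ⌊θ k - th c0 k⌋ with hn
    have hcL : c0 + ∑ k, n k • v k ∈ L :=
      L.add_mem hc0L (AddSubgroup.sum_mem _ fun k _ => L.zsmul_mem (hvL k) _)
    have hthc : th (c0 + ∑ k, n k • v k) = th c0 + fun k => (n k : ℝ) := by
      apply Ph_inj v hv
      rw [hth _ hcL, Ph_add, hth _ hc0L, Ph_int]
      funext m
      simp [cc]
    have hq : θ ∈ Qc (th (c0 + ∑ k, n k • v k)) := by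
      intro k _
      rw [hthc]
      simp only [Pi.add_apply, Set.mem_Ico]
      have h2 := Int.floor_le (θ k - th c0 k)
      have h3 := Int.lt_floor_add_one (θ k - th c0 k)
      simp only [hn]
      constructor <;> linarith
    refine ⟨c0 + ∑ k, n k • v k, ?_, hq⟩
    rw [hS]
    refine ⟨?_, hcL, ?_⟩
    · rw [hbx]
      intro m
      rw [← hth _ hcL]
      have e : Ph v (th (c0 + ∑ k, n k • v k)) = Ph v θ - Ph v (θ - th (c0 + ∑ k, n k • v k)) := by
        rw [Ph_sub]; simp
      rw [e, Pi.sub_apply]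
      have h2 := hθ m
      have h3 : |Ph v (θ - th (c0 + ∑ k, n k • v k)) m| ≤ r * V := by
        refine Ph_small V v hV _ (fun k => ?_) m
        have h4 := hq k (Set.mem_univ k)
        simp only [Set.mem_Ico] at h4
        rw [Pi.sub_apply, abs_le]
        constructor <;> linarith [h4.1, h4.2]
      calc |Ph v θ m - Ph v (θ - th (c0 + ∑ k, n k • v k)) m|
          ≤ |Ph v θ m| + |Ph v (θ - th (c0 + ∑ k, n k • v k)) m| := abs_sub _ _
        _ ≤ (s - r * V) + r * V := add_le_add h2 h3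
        _ = s := by ring
    · intro k
      rw [hthc]
      simp only [Pi.add_apply]
      rw [Int.fract_add_intCast]
      exact hc0f k
  -- finiteness and positivity
  have hfin : κ ≠ ⊤ := by
    have h1 := hlow (r * V + 1) (by omega)
    have h2 : ((r * V + 1 : ℕ) : ℝ) - r * V = 1 := by push_cast; ring
    rw [h2] at h1
    simp only [one_pow, ENNReal.ofReal_one, one_mul] at h1
    exact ne_top_of_le_ne_top (ENNReal.natCast_ne_top _) h1
  have hpos : κ ≠ 0 := by
    intro h0
    rw [h0, mul_zero] at hup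
    have h1 : (S t).card = 0 := by exact_mod_cast le_antisymm hup bot_le
    rw [Finset.card_eq_zero] at h1
    rw [h1] at hc0
    simp at hc0
  have hs' : 0 ≤ (s : ℝ) - r * V := by
    have : ((r * V : ℕ) : ℝ) ≤ s := by exact_mod_cast hs
    push_cast at this
    linarith
  have hk : 0 < κ.toReal := ENNReal.toReal_pos hpos hfin
  have hup' : ((S t).card : ℝ) ≤ ((t : ℝ) + r * V) ^ r * κ.toReal := by
    have h1 := ENNReal.toReal_mono (ENNReal.mul_ne_top ENNReal.ofReal_ne_top hfin) hup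
    rw [ENNReal.toReal_mul, ENNReal.toReal_ofReal (by positivity)] at h1
    simpa using h1
  have hlow' : ((s : ℝ) - r * V) ^ r * κ.toReal ≤ ((S s).card : ℝ) := by
    have h1 := ENNReal.toReal_mono (ENNReal.natCast_ne_top _) (hlow s hs)
    rw [ENNReal.toReal_mul, ENNReal.toReal_ofReal (by positivity)] at h1
    simpa using h1
  have hfinal : (((S t).card : ℝ) * ((s : ℝ) - r * V) ^ r) * κ.toReal ≤
      (((S s).card : ℝ) * ((t : ℝ) + r * V) ^ r) * κ.toReal := by
    calc (((S t).card : ℝ) * ((s : ℝ) - r * V) ^ r) * κ.toReal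
        = ((S t).card : ℝ) * (((s : ℝ) - r * V) ^ r * κ.toReal) := by ring
      _ ≤ (((t : ℝ) + r * V) ^ r * κ.toReal) * ((S s).card : ℝ) := by
          apply mul_le_mul hup' hlow'
          · positivity
          · positivity
      _ = (((S s).card : ℝ) * ((t : ℝ) + r * V) ^ r) * κ.toReal := by ring
  exact le_of_mul_le_mul_right hfinal hk

theorem reg : RegStatement := by
  classical
  intro r V v L hv hV hvL hL s t hs
  have hex : ∀ c : Mon → ℤ, ∃ θ : Fin r → ℝ, c ∈ L → Ph v θ = cc ℝ c := by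
    intro c
    by_cases hc : c ∈ L
    · obtain ⟨θ, hθ⟩ := (Submodule.mem_span_range_iff_exists_fun ℝ).1 (hL c hc)
      exact ⟨θ, fun _ => by rw [Ph_eq, hθ]⟩
    · exact ⟨0, fun h => absurd h hc⟩
  choose th hth using hex
  rcases Nat.eq_zero_or_pos r with hr0 | hr0
  · subst hr0
    have hsub : ∀ c ∈ L, c = 0 := by
      intro c hc
      have h1 := hth c hc
      funext m
      have h2 := congrFun h1 m
      simp [Ph, cc] at h2
      simpa using h2.symm
    have h1 : ((box t).filter (· ∈ L)).card ≤ 1 := by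
      rw [Finset.card_le_one]
      intro a ha b hb
      rw [Finset.mem_filter] at ha hb
      rw [hsub a ha.2, hsub b hb.2]
    have h2 : 1 ≤ ((box s).filter (· ∈ L)).card := by
      rw [Nat.one_le_iff_ne_zero, ← Nat.pos_iff_ne_zero, Finset.card_pos]
      refine ⟨0, ?_⟩
      rw [Finset.mem_filter, mem_box]
      exact ⟨by simp, L.zero_mem⟩
    simp only [pow_zero, mul_one]
    exact_mod_cast h1.trans h2
  · have hV0 : 0 < V := by
      by_contra h0
      have hV0 : V = 0 := by omega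
      have h1 : v ⟨0, hr0⟩ = 0 := by
        funext m
        have := hV ⟨0, hr0⟩ m
        rw [hV0] at this
        simpa using this
      have h2 := hv.ne_zero ⟨0, hr0⟩
      apply h2
      funext m
      simp [cc, h1]
    have ht : 0 < (t : ℝ) + r * V := by
      have : (0 : ℝ) < r := by exact_mod_cast hr0
      have : (0 : ℝ) < V := by exact_mod_cast hV0
      positivity
    set fr : (Mon → ℤ) → (Fin r → ℝ) := fun c k => Int.fract (th c k) with hfr
    set F : Finset (Fin r → ℝ) := (((box t).filter (· ∈ L)).image fr) ∪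
      (((box s).filter (· ∈ L)).image fr) with hF
    have hdec : ∀ u : ℕ, (∀ c ∈ (box u).filter (· ∈ L), fr c ∈ F) →
        (((box u).filter (· ∈ L)).card : ℝ) =
          ∑ f ∈ F, ((((box u).filter (· ∈ L)).filter fun c => fr c = f).card : ℝ) := by
      intro u hu
      rw [Finset.card_eq_sum_card_fiberwise hu]
      push_cast
      rfl
    rw [hdec t, hdec s, Finset.sum_mul, Finset.sum_mul]
    · refine Finset.sum_le_sum fun f _ => ?_
      refine coset (L := L) hv hV hvL th hth f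
        (fun u => ((box u).filter (· ∈ L)).filter fun c => fr c = f) ?_ s t hs ht
      intro u c
      rw [Finset.mem_filter, Finset.mem_filter, and_assoc]
      refine and_congr_right fun _ => and_congr_right fun _ => ?_
      rw [funext_iff]
    · intro c hc
      rw [hF, Finset.mem_union]
      right
      exact Finset.mem_image_of_mem _ hc
    · intro c hc
      rw [hF, Finset.mem_union]
      left
      exact Finset.mem_image_of_mem _ hc

end

end H97
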