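import Pool.Agent.Lib.MP_95ac01_nt.Iface

/-!
# MP_95ac01_nt (S17823): module UPPER2
-/

set_option autoImplicit false

namespace H97

open Cub Finset

noncomputable section

/-- Integer solutions of small size modulo the two monomials. -/
theorem fex (hCov : Cov2Statement) {A : ℕ} {x y : Fin 4 → ℤ} (hx : Good A x) (hy : Good A y)
    (hw : 0 < wd x y) {m m' : Mon} (hΔ : mv m x * mv m' y - mv m' x * mv m y ≠ 0) (c : Mon → ℤ) :
    ∃ (c' : Mon → ℤ) (a b : ℤ), ev c' x = ev c x - a * mv m x - b * mv m' x ∧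
      ev c' y = ev c y - a * mv m y - b * mv m' y ∧ ∀ n, |c' n| ≤ 2 + 1280 * (A : ℤ) ^ 2 := by
  set u : ℝ := ((mv m x : ℤ) : ℝ) with hu
  set u' : ℝ := ((mv m' x : ℤ) : ℝ) with hu'
  set w : ℝ := ((mv m y : ℤ) : ℝ) with hw1
  set w' : ℝ := ((mv m' y : ℤ) : ℝ) with hw1'
  set ρ : ℝ := ((ev c x : ℤ) : ℝ) with hρ
  set σ : ℝ := ((ev c y : ℤ) : ℝ) with hσ
  have hD : u * w' - u' * w ≠ 0 := by
    rw [hu, hu', hw1, hw1']
    exact_mod_cast hΔ
  set θ : ℝ := (ρ * w' - u' * σ) / (u * w' - u' * w) with hθ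
  set θ' : ℝ := (u * σ - ρ * w) / (u * w' - u' * w) with hθ'
  have e1 : θ * u + θ' * u' = ρ := by
    rw [hθ, hθ', div_mul_eq_mul_div, div_mul_eq_mul_div, ← add_div, div_eq_iff hD]; ring
  have e2 : θ * w + θ' * w' = σ := by
    rw [hθ, hθ', div_mul_eq_mul_div, div_mul_eq_mul_div, ← add_div, div_eq_iff hD]; ring
  set a : ℤ := ⌊θ⌋ with ha
  set b : ℤ := ⌊θ'⌋ with hb
  have fa : (a : ℝ) + Int.fract θ = θ := Int.floor_add_fract θ
  have fb : (b : ℝ) + Int.fract θ' = θ' := Int.floor_add_fract θ'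
  obtain ⟨c', h1, h2, h3⟩ := hCov A x y hx hy hw
    (Pi.single m (Int.fract θ) + Pi.single m' (Int.fract θ'))
    (c - Pi.single m a - Pi.single m' b) 2 (by
      rw [ev_add, ev_single, ev_single, mv_cast, mv_cast, ev_sub, ev_sub, ev_single, ev_single]
      push_cast
      rw [← hu, ← hu', ← hρ]
      linear_combination e1 + u * fa + u' * fb) (by
      rw [ev_add, ev_single, ev_single, mv_cast, mv_cast, ev_sub, ev_sub, ev_single, ev_single]
      push_cast
      rw [← hw1, ← hw1', ← hσ]
      linear_combination e2 + w * fa + w' * fb) (by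
      intro n
      have key : ∀ (k : Mon) (z : ℝ), |(Pi.single k (Int.fract z) : Mon → ℝ) n| ≤ 1 := by
        intro k z
        by_cases h : n = k
        · subst h
          simp only [Pi.single_eq_same]
          rw [abs_of_nonneg (Int.fract_nonneg z)]
          exact (Int.fract_lt_one z).le
        · rw [Pi.single_eq_of_ne h]; simp
      rw [Pi.add_apply]
      calc _ ≤ _ := abs_add_le _ _
        _ ≤ 1 + 1 := add_le_add (key m θ) (key m' θ')
        _ = 2 := by norm_num)
  refine ⟨c', a, b, ?_, ?_, ?_⟩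
  · rw [h1, ev_sub, ev_sub, ev_single, ev_single]
  · rw [h2, ev_sub, ev_sub, ev_single, ev_single]
  · intro n
    have := h3 n
    exact_mod_cast this

/-- The lattice injection. -/
theorem inj_count (hCov : Cov2Statement) (hDiv : DivStatement) {A B H : ℕ} {x y : Fin 4 → ℤ}
    (hx : x ∈ G A B) (hy : y ∈ G A B) (hw : 0 < wd x y) {m m' : Mon}
    (hΔ : mv m x * mv m' y - mv m' x * mv m y ≠ 0) (hAH : 2 + 1280 * A ^ 2 ≤ H) :
    ((box (2 * H)).filter fun c => ev c x = 0 ∧ ev c y = 0).card * H ^ 2 *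
      (mv m x * mv m' y - mv m' x * mv m y).natAbs ≤ (10 * H + 1) ^ 20 * gd x y := by
  classical
  have hGx := (mem_G.1 hx).2
  have hGy := (mem_G.1 hy).2
  have hPx := (mem_shell.1 (mem_G.1 hx).1).2.1
  have hPy := (mem_shell.1 (mem_G.1 hy).1).2.1
  obtain ⟨κ, hκ1, hκ2⟩ := hDiv x y hPx hPy hw
  set d : ℤ := ((gd x y : ℕ) : ℤ) with hd
  have hd0 : 0 < d := by rw [hd]; exact_mod_cast (gd_pos_iff x y).2 hw
  set u := mv m x with hu
  set u' := mv m' x with hu'
  set w := mv m y with hw1
  set w' := mv m' y with hw1'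
  obtain ⟨t, ht⟩ := hκ1 (Pi.single m 1)
  obtain ⟨t', ht'⟩ := hκ1 (Pi.single m' 1)
  rw [ev_single, ev_single, one_mul, one_mul, ← hu, ← hw1] at ht
  rw [ev_single, ev_single, one_mul, one_mul, ← hu', ← hw1'] at ht'
  have hg0 : 0 < Int.gcd u u' := by
    rw [Int.gcd_pos_iff]
    by_contra h
    push Not at h
    apply hΔ
    rw [h.1, h.2]; ring
  obtain ⟨μ, μ', hcop, hμ, hμ'⟩ := Int.exists_gcd_one hg0
  set g : ℕ := Int.gcd u u' with hg
  set E : ℕ := (μ * t' - μ' * t).natAbs with hE
  have hDE : (u * w' - u' * w).natAbs = gd x y * (g * E) := by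
    have e1 : u * w' - u' * w = d * (g * (μ * t' - μ' * t)) := by
      have h1 : w = κ * u + d * t := by linarith
      have h2 : w' = κ * u' + d * t' := by linarith
      rw [h1, h2]
      linear_combination d * t' * hμ - d * t * hμ'
    rw [e1, Int.natAbs_mul, Int.natAbs_mul, hE, hd]
    simp
  -- the representatives
  have hF : ∀ rk : ℕ × ℕ, ∃ (c' : Mon → ℤ) (a b : ℤ),
      ev c' x = (rk.1 : ℤ) - a * u - b * u' ∧
      ev c' y = (κ * rk.1 + d * rk.2) - a * w - b * w' ∧ ∀ n, |c' n| ≤ 2 + 1280 * (A : ℤ) ^ 2 := by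
    intro rk
    obtain ⟨c, hc1, hc2⟩ := hκ2 (rk.1 : ℤ) (κ * rk.1 + d * rk.2) ⟨rk.2, by ring⟩
    obtain ⟨c', a, b, h1, h2, h3⟩ := fex hCov hGx hGy hw hΔ c
    rw [hc1] at h1
    rw [hc2] at h2
    exact ⟨c', a, b, h1, h2, h3⟩
  choose F α β hFx hFy hFs using hF
  set Y := (box (2 * H)).filter fun c => ev c x = 0 ∧ ev c y = 0 with hY
  have key : (Y ×ˢ ((range H ×ˢ range H) ×ˢ (range g ×ˢ range E))).card ≤ (box (5 * H)).card := by
    refine Finset.card_le_card_of_injOn
      (fun p => p.1 + Pi.single m (p.2.1.1 : ℤ) + Pi.single m' (p.2.1.2 : ℤ) + F p.2.2) ?_ ?_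
    · rintro ⟨f, ⟨a, b⟩, rk⟩ hp
      simp only [Finset.coe_product, Set.mem_prod, Finset.mem_coe, Finset.mem_range] at hp
      obtain ⟨hf, ⟨ha, hb⟩, -⟩ := hp
      rw [hY, Finset.mem_filter, mem_box] at hf
      simp only [Finset.mem_coe]
      rw [mem_box]
      intro n
      have h1 := hf.1 n
      have h2 := hFs rk n
      have key : ∀ (k : Mon) (a : ℕ), a < H → |(Pi.single k (a : ℤ) : Mon → ℤ) n| ≤ H := by
        intro k a ha
        by_cases h : n = k
        · subst h
          simp only [Pi.single_eq_same]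
          rw [abs_of_nonneg (by positivity)]
          exact_mod_cast ha.le
        · rw [Pi.single_eq_of_ne h]; simp
      have h3 := key m a ha
      have h4 := key m' b hb
      simp only [Pi.add_apply]
      have h5 : (2 : ℤ) + 1280 * (A : ℤ) ^ 2 ≤ H := by exact_mod_cast hAH
      push_cast at h1 ⊢
      rw [abs_le] at h1 h2 h3 h4 ⊢
      constructor <;> linarith [h1.1, h1.2, h2.1, h2.2, h3.1, h3.2, h4.1, h4.2]
    · rintro ⟨f, ⟨a, b⟩, ⟨r, k⟩⟩ hp ⟨f', ⟨a', b'⟩, ⟨r', k'⟩⟩ hp' heq
      simp only [Finset.coe_product, Set.mem_prod, Finset.mem_coe, Finset.mem_range] at hp hp'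
      obtain ⟨hf, ⟨-, -⟩, hr, hk⟩ := hp
      obtain ⟨hf', ⟨-, -⟩, hr', hk'⟩ := hp'
      rw [hY, Finset.mem_filter] at hf hf'
      simp only at heq
      have hX := congrArg (fun c => ev c x) heq
      have hYY := congrArg (fun c => ev c y) heq
      simp only [ev_add, ev_single, hf.2.1, hf.2.2, hf'.2.1, hf'.2.2, hFx, hFy, ← hu, ← hu',
        ← hw1, ← hw1'] at hX hYY
      set P : ℤ := a' - a + α (r, k) - α (r', k') with hP
      set Q : ℤ := b' - b + β (r, k) - β (r', k') with hQ
      have q1 : (r : ℤ) - r' = P * u + Q * u' := by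
        rw [hP, hQ]; linear_combination hX
      have q2 : κ * ((r : ℤ) - r') + d * ((k : ℤ) - k') = P * w + Q * w' := by
        rw [hP, hQ]; linear_combination hYY
      have hgr : (g : ℤ) ∣ (r : ℤ) - r' := by
        rw [q1, hμ, hμ']
        exact ⟨P * μ + Q * μ', by ring⟩
      have hrr : (r : ℤ) - r' = 0 := by
        apply Int.eq_zero_of_abs_lt_dvd hgr
        rw [abs_lt]
        constructor <;> omega
      have hr2 : r = r' := by omega
      have hg' : (g : ℤ) ≠ 0 := by exact_mod_cast hg0.ne'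
      have q3 : P * μ + Q * μ' = 0 := by
        have : (g : ℤ) * (P * μ + Q * μ') = 0 := by
          rw [← hrr, q1]
          linear_combination -P * hμ - Q * hμ'
        exact (mul_eq_zero.1 this).resolve_left hg'
      obtain ⟨e, f1, hbez⟩ : IsCoprime μ μ' := Int.isCoprime_iff_gcd_eq_one.2 hcop
      set j : ℤ := f1 * P - e * Q with hj
      have hPj : P = j * μ' := by
        rw [hj]; linear_combination -P * hbez + e * q3
      have hQj : Q = -(j * μ) := by
        rw [hj]; linear_combination -Q * hbez + f1 * q3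
      have q4 : (k : ℤ) - k' = P * t + Q * t' := by
        have h1 : w = κ * u + d * t := by linarith
        have h2 : w' = κ * u' + d * t' := by linarith
        have : d * ((k : ℤ) - k') = d * (P * t + Q * t') := by
          rw [h1, h2] at q2
          linear_combination q2 - κ * q1
        exact mul_left_cancel₀ hd0.ne' this
      have q5 : (k : ℤ) - k' = -j * (μ * t' - μ' * t) := by
        rw [q4, hPj, hQj]; ring
      have hEd : (E : ℤ) ∣ (k : ℤ) - k' := by
        rw [q5, hE]
        exact Dvd.dvd.mul_left (Int.natAbs_dvd.2 dvd_rfl) _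
      have hkk : (k : ℤ) - k' = 0 := by
        apply Int.eq_zero_of_abs_lt_dvd hEd
        rw [abs_lt]
        constructor <;> omega
      have hk2 : k = k' := by omega
      subst hr2 hk2
      have s1 : ((a : ℤ) - a') * u + ((b : ℤ) - b') * u' = 0 := by linear_combination hX
      have s2 : ((a : ℤ) - a') * w + ((b : ℤ) - b') * w' = 0 := by linear_combination hYY
      have ha : (a : ℤ) - a' = 0 := by
        have : ((a : ℤ) - a') * (u * w' - u' * w) = 0 := by linear_combination w' * s1 - u' * s2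
        exact (mul_eq_zero.1 this).resolve_right hΔ
      have hb : (b : ℤ) - b' = 0 := by
        have : ((b : ℤ) - b') * (u * w' - u' * w) = 0 := by linear_combination u * s2 - w * s1
        exact (mul_eq_zero.1 this).resolve_right hΔ
      have ha2 : a = a' := by omega
      have hb2 : b = b' := by omega
      subst ha2 hb2
      have hff : f = f' := by
        have h1 := add_right_cancel heq
        have h2 := add_right_cancel h1
        exact add_right_cancel h2
      rw [hff]
  rw [Finset.card_product, Finset.card_product, Finset.card_product, Finset.card_product,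
    Finset.card_range, Finset.card_range, Finset.card_range, card_box] at key
  rw [hDE]
  calc Y.card * H ^ 2 * (gd x y * (g * E)) = (Y.card * (H * H * (g * E))) * gd x y := by ring
    _ ≤ (2 * (5 * H) + 1) ^ 20 * gd x y := Nat.mul_le_mul_right _ key
    _ = (10 * H + 1) ^ 20 * gd x y := by ring_nf

theorem upper2 : Cov2Statement → MinorStatement → DivStatement → Upper2Statement := by
  classical
  intro hCov hMinor hDiv
  obtain ⟨CM, hM⟩ := hMinor
  refine ⟨CM * 11 ^ 20 + 1282, ?_⟩
  intro A B H x y hx hy hw hAH r s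
  have hA : 1 ≤ A := by
    obtain ⟨l, hl, -, hs⟩ := (mem_G.1 hx).2
    by_contra h0
    have hA0 : A = 0 := by omega
    have h1 : l 0 = 0 := by
      funext i
      have := hs 0 i
      rw [hA0] at this
      simpa using this
    exact hl.ne_zero 0 h1
  have hB : 1 ≤ B := by
    obtain ⟨h1, -, i, hi⟩ := mem_shell.1 (mem_G.1 hx).1
    have := h1 i
    by_contra h0
    have : B = 0 := by omega
    omega
  have hA2 : 1 ≤ A ^ 2 := Nat.one_le_pow _ _ hA
  have hAH2 : 2 + 1280 * A ^ 2 ≤ H := by
    have h1 : 1282 * A ^ 2 ≤ (CM * 11 ^ 20 + 1282) * A ^ 2 := Nat.mul_le_mul_right _ (by omega)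
    omega
  have hH : 1 ≤ H := by omega
  obtain ⟨m, m', hmm⟩ := hM B x y (mem_G.1 hx).1 (mem_G.1 hy).1
  set Δ : ℤ := mv m x * mv m' y - mv m' x * mv m y with hΔdef
  have hΔ : Δ ≠ 0 := by
    intro h0
    rw [h0] at hmm
    simp only [abs_zero, mul_zero] at hmm
    have : 0 < (B : ℤ) ^ 4 * (wd x y : ℤ) := by
      have : (0 : ℤ) < B := by exact_mod_cast hB
      have : (0 : ℤ) < wd x y := by exact_mod_cast hw
      positivity
    omega
  have hkey := inj_count hCov hDiv hx hy hw (m := m) (m' := m') hΔ hAH2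
  rw [← hΔdef] at hkey
  set Y := (box (2 * H)).filter fun c => ev c x = 0 ∧ ev c y = 0 with hY
  have hn2 : n2 x y r s H ≤ Y.card := by
    unfold n2
    rcases ((box H).filter fun c => ev c x = r ∧ ev c y = s).eq_empty_or_nonempty with h | ⟨c0, hc0⟩
    · rw [h]; simp
    · rw [Finset.mem_filter, mem_box] at hc0
      refine Finset.card_le_card_of_injOn (fun c => c - c0) ?_ ?_
      · intro c hc
        simp only [Finset.coe_filter, Set.mem_setOf_eq, mem_box] at hc
        simp only [hY, Finset.coe_filter, Set.mem_setOf_eq, mem_box, ev_sub]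
        refine ⟨?_, ?_, ?_⟩
        · intro n
          have h1 := hc.1 n
          have h2 := hc0.1 n
          rw [abs_le] at h1 h2 ⊢
          simp only [Pi.sub_apply]
          push_cast
          constructor <;> linarith [h1.1, h1.2, h2.1, h2.2]
        · rw [hc.2.1, hc0.2.1, sub_self]
        · rw [hc.2.2, hc0.2.2, sub_self]
      · intro c _ c' _ h
        simpa using h
  have hmm' : B ^ 4 * wd x y ≤ CM * Δ.natAbs := by
    have h1 : ((B ^ 4 * wd x y : ℕ) : ℤ) ≤ ((CM * Δ.natAbs : ℕ) : ℤ) := by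
      push_cast
      exact hmm
    exact_mod_cast h1
  have hfin : (n2 x y r s H * (B ^ 4 * wd x y)) * H ^ 2 ≤
      ((CM * 11 ^ 20 + 1282) * H ^ 18 * gd x y) * H ^ 2 := by
    calc (n2 x y r s H * (B ^ 4 * wd x y)) * H ^ 2
        ≤ (Y.card * (CM * Δ.natAbs)) * H ^ 2 := by gcongr
      _ = CM * (Y.card * H ^ 2 * Δ.natAbs) := by ring
      _ ≤ CM * ((10 * H + 1) ^ 20 * gd x y) := Nat.mul_le_mul_left _ hkey
      _ ≤ CM * ((11 * H) ^ 20 * gd x y) := by
          have : 10 * H + 1 ≤ 11 * H := by omega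
          gcongr
      _ = (CM * 11 ^ 20 * H ^ 18 * gd x y) * H ^ 2 := by
          rw [mul_pow]; ring
      _ ≤ _ := by
          gcongr
          omega
  exact Nat.le_of_mul_le_mul_right hfin (by positivity)

end

end H97
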